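import Pool.Agent.W759.TR.Defs

/-! Project TR, part T6: constraint and orthogonality along a path. -/

namespace Pool.Agent.W778.TR.T6

open MeasureTheory ProbabilityTheory Set Filter
open scoped ENNReal Topology
open Pool.Agent.W759.FD (IsSign chsh blk hs house coins coin sg rs)
open Pool.Agent.W759.TR

variable {V : Type}

theorem measurable_blk6 (m k : ℕ) : Measurable (blk m k) := by
  unfold blk
  refine Finset.measurable_prod _ fun j _ => ?_
  exact (measurable_of_countable sg).comp (measurable_pi_apply j)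

theorem measurableSet_hs6 (m : ℕ) : MeasurableSet (hs m) := by
  unfold hs chsh
  refine measurableSet_eq_fun ((measurable_blk6 m 1).mul (measurable_blk6 m 2)) ?_
  have h0 := measurable_blk6 m 0
  have h3 := measurable_blk6 m 3
  fun_prop

theorem measurable_rd6 (n c : ℕ) (w : List Lab) (γ : ℕ → V) : Measurable (rdT n c w γ) := by
  unfold rdT
  refine measurable_pi_lambda _ fun j => ?_
  exact (measurable_pi_apply ((((n, c), w), j) : Key × ℕ)).comp
    (measurable_snd.comp (measurable_pi_apply (γ j)))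

theorem blk_congr (n k : ℕ) (hk : k < 4) (h h' : ℕ → Bool)
    (e : ∀ j < 4 * (n + 1), h j = h' j) : blk (n + 1) k h = blk (n + 1) k h' := by
  unfold blk
  refine Finset.prod_congr rfl fun j hj => ?_
  rw [Finset.mem_Ico] at hj
  have h1 : (k + 1) * (n + 1) ≤ 4 * (n + 1) := Nat.mul_le_mul_right _ hk
  rw [e j (lt_of_lt_of_le hj.2 h1)]

theorem hs_congr (n : ℕ) (h h' : ℕ → Bool) (e : ∀ j < 4 * (n + 1), h j = h' j) :
    h ∈ hs (n + 1) ↔ h' ∈ hs (n + 1) := by
  unfold hs
  rw [mem_ofPred_eq, mem_ofPred_eq, blk_congr n 0 (by norm_num) h h' e,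
    blk_congr n 1 (by norm_num) h h' e, blk_congr n 2 (by norm_num) h h' e,
    blk_congr n 3 (by norm_num) h h' e]

/-- the event on the labels -/
def EU (G : SimpleGraph V) (N : ℕ) (w : List Lab) (γ : ℕ → V) : Set (V → Lab) :=
  {U | ∀ j, j + 1 < N → Link G U w j (γ j) (γ (j + 1))}

theorem first_eq (G : SimpleGraph V) (U : V → Lab) (N : ℕ) (w : List Lab) (γ : ℕ → V)
    (hU : U ∈ EU G N w γ) (j : ℕ) : j < N → first G univ U w j (γ j) = (γ 0, 0) := by
  induction j with
  | zero => intro _; rfl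
  | succ j ih =>
    intro hj
    have hl : Link G U w j (γ j) (γ (j + 1)) := hU j hj
    have hex : ∃ u, u ∈ (univ : Set V) ∧ γ (j + 1) ∈ (univ : Set V) ∧
      Link G U w j u (γ (j + 1)) := ⟨γ j, mem_univ _, mem_univ _, hl⟩
    have hc : hex.choose = γ j := by
      have h1 := hex.choose_spec.2.2.2
      exact hl.2.2.2 _ h1.1 h1.2.1
    rw [first, dif_pos hex, hc]
    exact ih (by omega)

theorem mem_EL_iff (G : SimpleGraph V) (N : ℕ) (w : List Lab) (γ : ℕ → V) (ω : Env V) :
    XC G univ ω ∈ EL G N w γ ↔ ω.1 ∈ EU G N w γ := Iff.rfl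

theorem rd_eq (G : SimpleGraph V) (n c : ℕ) (w : List Lab) (γ : ℕ → V) (ω : Env V)
    (hU : ω.1 ∈ EU G (4 * (n + 1)) w γ) (j : ℕ) (hj : j < 4 * (n + 1)) :
    rdT n c w γ (XC G univ ω) j = ω.2 (((n, c), w), (γ 0, 0)) j := by
  unfold rdT XC
  dsimp only
  rw [first_eq G ω.1 _ w γ hU j hj]

theorem measurableSet_IsU [Countable V] (G : SimpleGraph V) {Ω : Type} [MeasurableSpace Ω]
    (f : Ω → V → Lab) (hf : Measurable f) (v : V) (c : Lab) (u : V) :
    MeasurableSet {ω | IsU G (f ω) v c u} := by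
  have hu : ∀ u', Measurable fun ω => f ω u' := fun u' => (measurable_pi_apply u').comp hf
  have hs : ∀ u', MeasurableSet {ω | f ω u' = c} := fun u' => (hu u') (measurableSet_singleton c)
  have e : {ω | IsU G (f ω) v c u} = {_ω | G.Adj v u} ∩ ({ω | f ω u = c} ∩
      ⋂ u', ({_ω | ¬ G.Adj v u'} ∪ ({ω | f ω u' = c}ᶜ ∪ {_ω | u' = u}))) := by
    ext ω
    simp only [IsU, mem_ofPred_eq, mem_inter_iff, mem_iInter, mem_union, mem_compl_iff]
    refine and_congr Iff.rfl (and_congr Iff.rfl (forall_congr' fun u' => ?_))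
    tauto
  rw [e]
  exact (MeasurableSet.const _).inter ((hs u).inter (MeasurableSet.iInter fun u' =>
    (MeasurableSet.const _).union ((hs u').compl.union (MeasurableSet.const _))))

theorem measurableSet_ELf [Countable V] (G : SimpleGraph V) {Ω : Type} [MeasurableSpace Ω]
    (f : Ω → V → Lab) (hf : Measurable f) (N : ℕ) (w : List Lab) (γ : ℕ → V) :
    MeasurableSet {ω | f ω ∈ EU G N w γ} := by
  have e : {ω | f ω ∈ EU G N w γ} = ⋂ j, ({_ω | ¬ (j + 1 < N)} ∪
      ({ω | IsU G (f ω) (γ j) (w.getD (j + 1) 0) (γ (j + 1))} ∩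
        {ω | IsU G (f ω) (γ (j + 1)) (w.getD j 0) (γ j)})) := by
    ext ω
    simp only [EU, Link, mem_ofPred_eq, mem_iInter, mem_union, mem_inter_iff]
    refine forall_congr' fun j => ?_
    tauto
  rw [e]
  exact MeasurableSet.iInter fun j => (MeasurableSet.const _).union
    ((measurableSet_IsU G f hf _ _ _).inter (measurableSet_IsU G f hf _ _ _))

theorem measurable_labs : Measurable fun (x : V → S1) (v : V) => (x v).1 :=
  measurable_pi_lambda _ fun v => measurable_fst.comp (measurable_pi_apply v)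

theorem measurableSet_EL [Countable V] (G : SimpleGraph V) (N : ℕ) (w : List Lab) (γ : ℕ → V) :
    MeasurableSet (EL G N w γ) :=
  measurableSet_ELf G (fun (x : V → S1) (v : V) => (x v).1) measurable_labs N w γ

theorem t6a : T6a := by
  intro hH hT2 V _ G n w γ
  have hpr : ∀ k : Key × (V × ℕ), IsProbabilityMeasure (house (k.1.1.1 + 1)) :=
    fun k => hH.1 _ (Nat.succ_pos _)
  have hPH : IsProbabilityMeasure (PH V) := by unfold PH; infer_instance
  have hPU : IsProbabilityMeasure (PU V) := by unfold PU; infer_instance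
  have hX : Measurable (XC G univ) := hT2 V G univ
  have key : ∀ᵐ x ∂(muT G), ∀ c, x ∈ EL G (4 * (n + 1)) w γ → rdT n c w γ x ∈ hs (n + 1) := by
    rw [ae_all_iff]
    intro c
    have hm : MeasurableSet {x : V → S1 | x ∈ EL G (4 * (n + 1)) w γ →
        rdT n c w γ x ∈ hs (n + 1)} := by
      have e : {x : V → S1 | x ∈ EL G (4 * (n + 1)) w γ → rdT n c w γ x ∈ hs (n + 1)} =
          (EL G (4 * (n + 1)) w γ)ᶜ ∪ (rdT n c w γ) ⁻¹' (hs (n + 1)) := by
        ext x
        simp only [mem_ofPred_eq, mem_union, mem_compl_iff, mem_preimage]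
        tauto
      rw [e]
      exact (measurableSet_EL G _ w γ).compl.union (measurable_rd6 n c w γ (measurableSet_hs6 _))
    unfold muT
    rw [ae_map_iff hX.aemeasurable hm]
    have h1 : MeasurePreserving (Function.eval ((((n, c), w), (γ 0, 0)) : Key × (V × ℕ)))
        (PH V) (house (n + 1)) :=
      measurePreserving_eval_infinitePi (fun k : Key × (V × ℕ) => house (k.1.1.1 + 1))
        (((n, c), w), (γ 0, 0))
    have h2 := h1.quasiMeasurePreserving.ae (hH.2.1 (n + 1) (Nat.succ_pos _))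
    have h3 : ∀ᵐ ω ∂(PE V), ω.2 (((n, c), w), (γ 0, 0)) ∈ hs (n + 1) := by
      unfold PE
      exact (Measure.quasiMeasurePreserving_snd (μ := PU V) (ν := PH V)).ae h2
    filter_upwards [h3] with ω hω hE
    rw [hs_congr n _ _ (rd_eq G n c w γ ω hE)]
    exact hω
  filter_upwards [key] with x hx hE c
  exact hx c hE

theorem t6b : T6b := by
  intro hH hT2 V _ G n w γ k c c' hk hcc
  have hpr : ∀ k : Key × (V × ℕ), IsProbabilityMeasure (house (k.1.1.1 + 1)) :=
    fun k => hH.1 _ (Nat.succ_pos _)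
  have hpn : IsProbabilityMeasure (house (n + 1)) := hH.1 _ (Nat.succ_pos _)
  have hPH : IsProbabilityMeasure (PH V) := by unfold PH; infer_instance
  have hPU : IsProbabilityMeasure (PU V) := by unfold PU; infer_instance
  have hX : Measurable (XC G univ) := hT2 V G univ
  have hk4 : k < 4 := by omega
  have hb : ∫ h, blk (n + 1) k h ∂(house (n + 1)) = 0 := by
    have h := hH.2.2.2 (n + 1) (Nat.succ_pos _)
    rcases hk with rfl | rfl
    · exact h.1
    · exact h.2
  have hmb := measurable_blk6 (n + 1) k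
  have hEm : MeasurableSet (EL G (4 * (n + 1)) w γ) := measurableSet_EL G _ w γ
  have hEU : MeasurableSet (EU G (4 * (n + 1)) w γ) :=
    measurableSet_ELf G (fun U : V → Lab => U) measurable_id _ w γ
  have hf : Measurable (fun x : V → S1 =>
      blk (n + 1) k (rdT n c w γ x) * blk (n + 1) k (rdT n c' w γ x)) :=
    (hmb.comp (measurable_rd6 n c w γ)).mul (hmb.comp (measurable_rd6 n c' w γ))
  rw [← integral_indicator hEm]
  unfold muT
  rw [integral_map hX.aemeasurable (hf.indicator hEm).aestronglyMeasurable]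
  have e : ∀ ω : Env V, (EL G (4 * (n + 1)) w γ).indicator (fun x : V → S1 =>
      blk (n + 1) k (rdT n c w γ x) * blk (n + 1) k (rdT n c' w γ x)) (XC G univ ω) =
      (EU G (4 * (n + 1)) w γ).indicator (fun _ => (1 : ℝ)) ω.1 *
        (blk (n + 1) k (ω.2 (((n, c), w), (γ 0, 0))) *
          blk (n + 1) k (ω.2 (((n, c'), w), (γ 0, 0)))) := by
    intro ω
    by_cases hω : ω.1 ∈ EU G (4 * (n + 1)) w γ
    · rw [indicator_of_mem ((mem_EL_iff G _ w γ ω).2 hω), indicator_of_mem hω, one_mul,
        blk_congr n k hk4 _ _ (rd_eq G n c w γ ω hω), blk_congr n k hk4 _ _ (rd_eq G n c' w γ ω hω)]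
    · rw [indicator_of_notMem (fun h => hω ((mem_EL_iff G _ w γ ω).1 h)), indicator_of_notMem hω,
        zero_mul]
  simp only [e]
  unfold PE
  rw [integral_prod_mul (fun U : V → Lab => (EU G (4 * (n + 1)) w γ).indicator (fun _ => (1 : ℝ)) U)
    (fun H : Key × (V × ℕ) → ℕ → Bool => blk (n + 1) k (H (((n, c), w), (γ 0, 0))) *
          blk (n + 1) k (H (((n, c'), w), (γ 0, 0))))]
  have hne : ((((n, c), w), (γ 0, 0)) : Key × (V × ℕ)) ≠ (((n, c'), w), (γ 0, 0)) := by
    intro h
    simp at h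
    exact hcc h
  have h1 := Measure.infinitePi_map_eval_prod
    (P := fun k : Key × (V × ℕ) => house (k.1.1.1 + 1)) hne
  have h2 : ∫ H, blk (n + 1) k (H (((n, c), w), (γ 0, 0))) *
        blk (n + 1) k (H (((n, c'), w), (γ 0, 0))) ∂(PH V) =
      ∫ p : (ℕ → Bool) × (ℕ → Bool), blk (n + 1) k p.1 * blk (n + 1) k p.2
        ∂((PH V).map (fun H : Key × (V × ℕ) → ℕ → Bool =>
          (H (((n, c), w), (γ 0, 0)), H (((n, c'), w), (γ 0, 0))))) := by
    rw [integral_map]
    · exact ((measurable_pi_apply _).prodMk (measurable_pi_apply _)).aemeasurable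
    · exact ((hmb.comp measurable_fst).mul (hmb.comp measurable_snd)).aestronglyMeasurable
  rw [h2]
  have h3 : (PH V).map (fun H : Key × (V × ℕ) → ℕ → Bool =>
        (H (((n, c), w), (γ 0, 0)), H (((n, c'), w), (γ 0, 0)))) =
      (house (n + 1)).prod (house (n + 1)) := h1
  rw [h3, integral_prod_mul (fun h => blk (n + 1) k h) (fun h => blk (n + 1) k h), hb, zero_mul,
    mul_zero]

end Pool.Agent.W778.TR.T6
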